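import Pool.Agent.MT100D.Stmts
import Pool.Agent.Helper47_MT100A.Kea

/-! MT100D, module KEA: simultaneous continuation of the translates of an arbitrary fundamental matrix
along a chain of discs inside a half plane (port of Helper47_MT100A/Kea). -/

set_option autoImplicit false

namespace Pool.Agent.MT100D.H90

open Matrix Pool.Agent.MT100 Pool.Agent.MT100G Pool.Agent.MT100G.H90 Metric

variable {d : Type} [Fintype d] [DecidableEq d]

/-- the base tuples -/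
noncomputable def bTD {ι : Type} (Y : ℂ → Matrix d d ℂ)
    (t : ι → Matrix d d ℂ) (k : ℤ) (ρ c : ℝ) :
    ℂ × ℝ × (ι → ℂ → Matrix d d ℂ) × (ℂ → ℂ) :=
  ((c : ℂ), ρ, (fun i w => Y w * t i), fun w => Complex.log w + 2 * Real.pi * Complex.I * k)

theorem bTD_one {ι : Type} (Y : ℂ → Matrix d d ℂ) (ρ c : ℝ) :
    bTD (ι := ι) Y (fun _ => 1) 0 ρ c = ((c : ℂ), ρ, (fun _ => Y), Complex.log) := by
  unfold bTD
  simp

theorem base_TD {ι : Type} {Y : ℂ → Matrix d d ℂ}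
    {q : Polynomial ℤ} {B : Matrix d d (Polynomial ℤ)} {R : ℝ} (hR0 : 0 < R)
    (hR : ∀ (c : ℂ) (ρ : ℝ), 0 < ρ → ball c ρ ⊆ {w | R < w.re} → SolOn q B c ρ Y)
    (κ : ι → ℕ) (Km : ℕ) (hκ : ∀ j, κ j ≤ Km) (t : ι → Matrix d d ℂ)
    (ht : ∀ j, IsUnit (t j).det) (k : ℤ) {ρ c : ℝ} (hρ : 0 < ρ) (hρ1 : ρ ≤ 1)
    (hc : R + Km + 1 ≤ c) : SolT q B κ (bTD Y t k ρ c) := by
  have hre : ∀ w ∈ ball (c : ℂ) ρ, 0 < w.re := by
    intro w hw
    have h1 := re_of_mem_ball hw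
    rw [Complex.ofReal_re] at h1
    have : (0 : ℝ) ≤ Km := Nat.cast_nonneg _
    linarith
  refine ⟨hρ, fun j => ?_, fun w hw => ?_, ?_⟩
  · refine SolOn.mul_const (hR _ _ hρ ?_) (ht j)
    intro w hw
    have h1 := re_of_mem_ball hw
    have h2 : ((c : ℂ) - κ j).re = c - κ j := by simp
    have h3 : (κ j : ℝ) ≤ Km := by exact_mod_cast hκ j
    have h4 : ((bTD Y t k ρ c).1 - (κ j : ℂ)).re = c - κ j := h2
    rw [h4] at h1
    show R < w.re
    linarith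
  · have hw' : w ∈ ball (c : ℂ) ρ := hw
    have h0 : w ≠ 0 := by
      intro h
      have := hre w hw'
      rw [h] at this
      simp at this
    refine ⟨h0, ?_⟩
    show Complex.exp (Complex.log w + 2 * Real.pi * Complex.I * k) = w
    have h1 : Complex.exp (2 * Real.pi * Complex.I * k) = 1 :=
      Complex.exp_eq_one_iff.2 ⟨k, by ring⟩
    rw [Complex.exp_add, Complex.exp_log h0, h1, mul_one]
  · intro w hw
    have hw' : w ∈ ball (c : ℂ) ρ := hw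
    apply DifferentiableAt.differentiableWithinAt
    exact (Complex.differentiableAt_log
      (Complex.mem_slitPlane_iff.2 (Or.inl (hre w hw')))).add (differentiableAt_const _)

theorem tup_of_oneD {ι : Type} {Y : ℂ → Matrix d d ℂ}
    {q : Polynomial ℤ} {B : Matrix d d (Polynomial ℤ)} {R : ℝ} (hR0 : 0 < R)
    (hR : ∀ (c : ℂ) (ρ : ℝ), 0 < ρ → ball c ρ ⊆ {w | R < w.re} → SolOn q B c ρ Y)
    (κ : ι → ℕ) (Km : ℕ) (hκ : ∀ j, κ j ≤ Km) (t : ι → Matrix d d ℂ)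
    (ht : ∀ j, IsUnit (t j).det) (k : ℤ) {c : ℝ} (hc : R + Km + 1 ≤ c)
    (h : CntT q B κ (bTD Y (fun _ => 1) 0 1 c) (bTD Y t k 1 c)) :
    (t, k) ∈ tupY q B Y κ := by
  have hcon : ∀ (t : ι → Matrix d d ℂ) (k : ℤ), (∀ j, IsUnit (t j).det) →
      ∀ c c', R + Km + 1 ≤ c → R + Km + 1 ≤ c' →
        CntT q B κ (bTD Y t k 1 c) (bTD Y t k 1 c') := by
    intro t k ht
    refine conn (StpT q B κ) (fun c => bTD Y t k 1 c) (R + Km + 1) ?_
    intro c c' hc hc' hcc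
    exact ⟨base_TD hR0 hR κ Km hκ t ht k one_pos le_rfl hc,
      base_TD hR0 hR κ Km hκ t ht k one_pos le_rfl hc', inter_unit hcc,
      fun w _ => ⟨fun j => rfl, rfl⟩⟩
  show ∀ᶠ c : ℝ in Filter.atTop, _
  filter_upwards [Filter.eventually_ge_atTop (R + Km + 1)] with c' hc'
  rw [← bTD_one]
  have h1 := hcon (fun _ => 1) 0 (fun _ => by rw [Matrix.det_one]; exact isUnit_one) c' c hc' hc
  exact (h1.trans h).trans (hcon t k ht c c' hc hc')

theorem mon_of_oneD {Y : ℂ → Matrix d d ℂ}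
    {q : Polynomial ℤ} {B : Matrix d d (Polynomial ℤ)} {R : ℝ}
    (hR : ∀ (c : ℂ) (ρ : ℝ), 0 < ρ → ball c ρ ⊆ {w | R < w.re} → SolOn q B c ρ Y)
    (U : Set ℂ) (c₀ : ℝ) (h0 : ∀ c, c₀ ≤ c → ball (c : ℂ) 1 ⊆ {w | R < w.re} ∧ ball (c : ℂ) 1 ⊆ U)
    {g : Matrix d d ℂ} (hg : IsUnit g.det) {c : ℝ} (hc : c₀ ≤ c)
    (h : Cnt q B U ((c : ℂ), 1, Y) ((c : ℂ), 1, fun w => Y w * g)) :
    g ∈ monY q B Y U := by
  have hcon : ∀ (g : Matrix d d ℂ), IsUnit g.det → ∀ c c', c₀ ≤ c → c₀ ≤ c' →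
      Cnt q B U ((c : ℂ), 1, fun w => Y w * g) ((c' : ℂ), 1, fun w => Y w * g) := by
    intro g hg
    refine conn (Stp q B U) (fun c : ℝ => ((c : ℂ), (1 : ℝ), fun w => Y w * g)) c₀ ?_
    intro c c' hc hc' hcc
    exact ⟨SolOn.mul_const (hR _ _ one_pos (h0 c hc).1) hg,
      SolOn.mul_const (hR _ _ one_pos (h0 c' hc').1) hg, (h0 c hc).2, (h0 c' hc').2,
      inter_unit hcc, fun w _ => rfl⟩
  show ∀ᶠ c : ℝ in Filter.atTop, _
  filter_upwards [Filter.eventually_ge_atTop c₀] with c' hc'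
  have h1 := hcon 1 (by rw [Matrix.det_one]; exact isUnit_one) c' c hc' hc
  have h2 : (fun w => Y w * (1 : Matrix d d ℂ)) = Y := by
    funext w
    rw [Matrix.mul_one]
  rw [h2] at h1
  exact (h1.trans h).trans (hcon g hg c c' hc hc')

/-- simultaneous continuation for an arbitrary fundamental matrix -/
theorem keyD (hO : OdeStmt) (hU : UniStmt) (hP : PerStmt) {q : Polynomial ℤ}
    {B : Matrix d d (Polynomial ℤ)} {R : ℝ} {Y : ℂ → Matrix d d ℂ} (hB : Base q B R Y)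
    {ι : Type} [Fintype ι] (κ : ι → ℕ) (i : ι) (U : Set ℂ) (hUo : IsOpen U) (m' : ℝ)
    (hm' : {w : ℂ | m' < w.re} ⊆ U) (g : Matrix d d ℂ) (hg : g ∈ monY q B Y U) :
    ∃ t ∈ tupY q B Y κ, t.1 i = g ∧ ((∀ w ∈ U, 0 < (w + κ i).re) → t.2 = 0) ∧
      ∀ (j : ι) (m : ℝ),
      (∀ w ∈ U, m < (w + ((κ i : ℂ) - κ j)).re) → t.1 j ∈ monY q B Y {w | m < w.re} := by
  have hR0 : 0 < R := hB.pos
  have hR : ∀ (c : ℂ) (ρ : ℝ), 0 < ρ → ball c ρ ⊆ {w | R < w.re} → SolOn q B c ρ Y := hB.sol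
  have hq0 : q ≠ 0 := by
    intro h
    have h1 := hR ((R + 1 : ℝ) : ℂ) 1 one_pos (fun w hw => by
      have h1 := re_of_mem_ball hw
      rw [Complex.ofReal_re] at h1
      show R < w.re
      linarith)
    have h2 := (h1.reg _ (mem_ball_self one_pos)).2
    rw [h] at h2
    apply h2
    unfold zC
    simp
  obtain ⟨Km, hKm⟩ : ∃ Km : ℕ, ∀ j, κ j ≤ Km := ⟨∑ j, κ j, fun j =>
    Finset.single_le_sum (f := κ) (fun _ _ => Nat.zero_le _) (Finset.mem_univ j)⟩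
  -- the bad set
  obtain ⟨Z, hZ⟩ : ∃ Z : Set ℂ, Z = {w : ℂ | w + κ i = 0} ∪
      ⋃ j : ι, {w : ℂ | ¬ Reg q (w + κ i - κ j)} := ⟨_, rfl⟩
  have hZf : Z.Finite := by
    rw [hZ]
    refine Set.Finite.union ?_ (Set.finite_iUnion fun j => ?_)
    · refine (Set.finite_singleton (-(κ i : ℂ))).subset ?_
      intro w hw
      exact eq_neg_of_add_eq_zero_left hw
    · have h1 : {w : ℂ | ¬ Reg q (w + κ i - κ j)} =
          (fun w : ℂ => w + κ i - κ j) ⁻¹' {w : ℂ | ¬ Reg q w} := rfl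
      rw [h1]
      refine (finite_bad hq0).preimage ?_
      intro a _ b _ hab
      have h2 : a + κ i - κ j = b + κ i - κ j := hab
      linear_combination h2
  have hZreg : ∀ w ∈ U \ Z, w + κ i ≠ 0 ∧ ∀ j, Reg q (w + κ i - κ j) := by
    intro w hw
    rw [hZ] at hw
    refine ⟨fun h => hw.2 (Or.inl h), fun j => ?_⟩
    by_contra h
    exact hw.2 (Or.inr (Set.mem_iUnion.2 ⟨j, h⟩))
  -- a large centre
  have hg' : ∀ᶠ c : ℝ in Filter.atTop, Cnt q B U ((c : ℂ), 1, Y)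
    ((c : ℂ), 1, fun w => Y w * g) := hg
  obtain ⟨c, ⟨hc1, hc2⟩, hc3, hc4⟩ := ((hg'.and (eventually_notMem hZf)).and
    ((Filter.eventually_ge_atTop (R + Km + 1)).and
      (Filter.eventually_ge_atTop (m' + 1)))).exists
  have hballU : ∀ c' : ℝ, m' + 1 ≤ c' → ball (c' : ℂ) 1 ⊆ U := by
    intro c' hc' w hw
    apply hm'
    have h1 := re_of_mem_ball hw
    rw [Complex.ofReal_re] at h1
    show m' < w.re
    linarith
  have hballR : ∀ (c' : ℝ) (ρ : ℝ), ρ ≤ 1 → R + 1 ≤ c' → ball (c' : ℂ) ρ ⊆ {w | R < w.re} := by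
    intro c' ρ hρ hc' w hw
    have h1 := re_of_mem_ball hw
    rw [Complex.ofReal_re] at h1
    show R < w.re
    linarith
  have hKm0 : (0 : ℝ) ≤ Km := Nat.cast_nonneg _
  have hκi : (0 : ℝ) ≤ κ i := Nat.cast_nonneg _
  obtain ⟨ε0, hε0, hper⟩ := hP d q B U hUo ((c : ℂ), 1, Y)
    ((c : ℂ), 1, fun w => Y w * g) hc1
    (hR _ _ one_pos (hballR c 1 le_rfl (by linarith))) (hballU c hc4) Z hZf
    (c : ℂ) (mem_ball_self one_pos) hc2 (c : ℂ) (mem_ball_self one_pos) hc2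
  obtain ⟨ε, hε, hεε0, hε1⟩ : ∃ ε : ℝ, 0 < ε ∧ ε ≤ ε0 ∧ ε ≤ 1 :=
    ⟨min ε0 1, lt_min hε0 one_pos, min_le_left _ _, min_le_right _ _⟩
  have hchain := hper ε ε hε hεε0 hε hεε0
  obtain ⟨C, hC⟩ : ∃ C : ℝ, C = c + κ i := ⟨_, rfl⟩
  have hCc : (C : ℂ) = (c : ℂ) + κ i := by
    rw [hC]
    push_cast
    ring
  have hCR : R + Km + 1 ≤ C := by
    rw [hC]
    linarith
  have hb1 : SolT q B κ ((C : ℂ), ε, (fun _ => Y), Complex.log) := by
    rw [← bTD_one]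
    exact base_TD hR0 hR κ Km hKm _ (fun _ => by rw [Matrix.det_one]; exact isUnit_one) 0 hε hε1
      hCR
  rw [hCc] at hb1
  obtain ⟨Yl, L, hYi, hS, hT, hcomp, hLog⟩ := MT100A.H47.liftL hO hU κ i (U \ Z) hZreg hchain
    (fun _ => Y) Complex.log rfl hb1
  simp only at hYi hS hT hcomp hLog
  have hcj : ∀ j : ι, (((C - κ j : ℝ) : ℝ) : ℂ) = (c : ℂ) + κ i - κ j := by
    intro j
    rw [Complex.ofReal_sub, hCc]
    push_cast
    ring
  have hCj : ∀ j : ι, R + 1 ≤ C - κ j := by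
    intro j
    have h1 : (κ j : ℝ) ≤ Km := by exact_mod_cast hKm j
    linarith
  have hYHj : ∀ j : ι, SolOn q B ((c : ℂ) + κ i - κ j) ε (Y) := by
    intro j
    rw [← hcj]
    exact hR _ _ hε (hballR _ _ hε1 (hCj j))
  have ht : ∀ j : ι, ∃ tj : Matrix d d ℂ, IsUnit tj.det ∧
      ∀ w ∈ ball ((c : ℂ) + κ i - κ j) ε, Yl j w = Y w * tj := by
    intro j
    exact uni_sol hU (hYHj j) (hS.2.1 j) (ball ((c : ℂ) + κ i - κ j) ε) isOpen_ball
      (convex_ball _ _) le_rfl le_rfl ⟨_, mem_ball_self hε⟩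
  choose t htu ht using ht
  have hti : t i = g := by
    have hmem : (c : ℂ) + κ i - κ i ∈ ball ((c : ℂ) + κ i - κ i) ε := mem_ball_self hε
    have h1 := ht i _ hmem
    rw [hYi] at h1
    have h2 := (hYHj i).det _ hmem
    have h3 := congrArg (fun M => (Y ((c : ℂ) + κ i - κ i))⁻¹ * M) h1
    simp only at h3
    rw [← Matrix.mul_assoc, ← Matrix.mul_assoc, Matrix.nonsing_inv_mul _ h2, Matrix.one_mul,
      Matrix.one_mul] at h3
    exact h3.symm
  -- the logarithm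
  obtain ⟨k, hk⟩ := log_diff (V := ball ((c : ℂ) + κ i) ε) isOpen_ball
    (convex_ball _ _).isPreconnected ⟨_, mem_ball_self hε⟩ (L := L) (L' := Complex.log)
    hS.2.2.2 hb1.2.2.2 (fun w hw => (hS.2.2.1 w hw).2) (fun w hw => (hb1.2.2.1 w hw).2)
  have hsub : ball ((C : ℂ)) ε ⊆ ball ((C : ℂ)) 1 := ball_subset_ball hε1
  have hone : ∀ _j : ι, IsUnit ((1 : Matrix d d ℂ)).det := fun _ => by
    rw [Matrix.det_one]
    exact isUnit_one
  have hB1 := base_TD hR0 hR κ Km hKm (fun _ => 1) hone 0 one_pos le_rfl hCR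
  have hBt := base_TD hR0 hR κ Km hKm t htu k one_pos le_rfl hCR
  have hfinal : CntT q B κ (bTD Y (fun _ => 1) 0 1 C) (bTD Y t k 1 C) := by
    have e1 : StpT q B κ (bTD Y (fun _ => 1) 0 1 C)
        ((c : ℂ) + κ i, ε, (fun _ => Y), Complex.log) := by
      refine ⟨hB1, hb1, ⟨(C : ℂ), mem_ball_self one_pos, ?_⟩, fun w _ => ?_⟩
      · rw [← hCc]
        exact mem_ball_self hε
      · rw [bTD_one]
        exact ⟨fun j => rfl, rfl⟩
    have e2 : StpT q B κ ((c : ℂ) + κ i, ε, Yl, L) (bTD Y t k 1 C) := by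
      refine ⟨hS, hBt, ⟨(C : ℂ), ?_, mem_ball_self one_pos⟩, fun w hw => ⟨fun j => ?_, ?_⟩⟩
      · rw [← hCc]
        exact mem_ball_self hε
      · apply ht j
        have h1 : w ∈ ball ((c : ℂ) + κ i) ε := hw.1
        rw [sub_eq_add_neg ((c : ℂ) + κ i), mem_tr, sub_neg_eq_add, sub_add_cancel]
        exact h1
      · exact hk w hw.1
    exact (Relation.ReflTransGen.head e1 hT).tail e2
  have hk0 : (∀ w ∈ U, 0 < (w + κ i).re) → k = 0 := by
    intro hpos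
    have h1 := hLog (fun w hw => hpos w hw.1) (fun w _ => trivial) ((c : ℂ) + κ i) (mem_ball_self hε)
    have h2 := hk ((c : ℂ) + κ i) (mem_ball_self hε)
    rw [h1] at h2
    have h3 : (2 * Real.pi * Complex.I * k : ℂ) = 0 := by linear_combination -h2
    have h4 : (2 * Real.pi * Complex.I : ℂ) ≠ 0 := Complex.two_pi_I_ne_zero
    have h5 : (k : ℂ) = 0 := (mul_eq_zero.1 h3).resolve_left h4
    exact_mod_cast h5
  refine ⟨(t, k), tup_of_oneD hR0 hR κ Km hKm t htu k hCR hfinal, hti, hk0, fun j m hjm => ?_⟩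
  -- the components
  have hmm : m ≤ m' + (κ i - κ j) := by
    apply le_of_forall_pos_lt_add
    intro δ hδ
    have h1 := hjm ((m' + δ : ℝ) : ℂ) (hm' (by
      show m' < (((m' + δ : ℝ) : ℂ)).re
      rw [Complex.ofReal_re]
      linarith))
    have h2 : (((m' + δ : ℝ) : ℂ) + ((κ i : ℂ) - κ j)).re = m' + δ + (κ i - κ j) := by simp
    rw [h2] at h1
    linarith
  have hCm : m + 1 ≤ C - κ j := by
    rw [hC]
    linarith
  have hbm : ∀ c' : ℝ, m + 1 ≤ c' → ball (c' : ℂ) 1 ⊆ {w | m < w.re} := by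
    intro c' hc' w hw
    have h1 := re_of_mem_ball hw
    rw [Complex.ofReal_re] at h1
    show m < w.re
    linarith
  refine mon_of_oneD hR {w | m < w.re} (max (R + 1) (m + 1))
    (fun c' hc' => ⟨hballR c' 1 le_rfl ((le_max_left _ _).trans hc'),
      hbm c' ((le_max_right _ _).trans hc')⟩) (htu j) (c := C - κ j)
    (max_le (hCj j) hCm) ?_
  have hmono : ∀ x y, Cnt q B (sh (U \ Z) ((κ i : ℂ) - κ j)) x y →
      Cnt q B {w | m < w.re} x y := by
    intro x y hxy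
    refine Relation.ReflTransGen.mono ?_ _ _ hxy
    intro a b hab
    have hs : sh (U \ Z) ((κ i : ℂ) - κ j) ⊆ {w | m < w.re} := by
      intro w hw
      have h1 := hjm _ hw.1
      rw [sub_add_cancel] at h1
      exact h1
    exact ⟨hab.1, hab.2.1, hab.2.2.1.trans hs, hab.2.2.2.1.trans hs, hab.2.2.2.2⟩
  have hmid := hmono _ _ (hcomp j)
  have hsol1 : SolOn q B (((C - κ j : ℝ) : ℝ) : ℂ) 1 (Y) :=
    hR _ _ one_pos (hballR _ _ le_rfl (hCj j))
  have hball1 : ball ((((C - κ j : ℝ) : ℝ) : ℂ)) ε ⊆ {w | m < w.re} :=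
    (ball_subset_ball hε1).trans (hbm _ hCm)
  have e1 : Stp q B {w | m < w.re} ((((C - κ j : ℝ) : ℝ) : ℂ), 1, Y)
      ((c : ℂ) + κ i - κ j, ε, Y) := by
    refine ⟨hsol1, hYHj j, hbm _ hCm, ?_, ⟨(((C - κ j : ℝ) : ℝ) : ℂ), mem_ball_self one_pos, ?_⟩,
      fun w _ => rfl⟩
    · rw [hcj] at hball1
      exact hball1
    · rw [hcj]
      exact mem_ball_self hε
  have e2 : Stp q B {w | m < w.re} ((c : ℂ) + κ i - κ j, ε, Yl j)
      ((((C - κ j : ℝ) : ℝ) : ℂ), 1, fun w => Y w * t j) := by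
    refine ⟨hS.2.1 j, SolOn.mul_const hsol1 (htu j), ?_, hbm _ hCm,
      ⟨(((C - κ j : ℝ) : ℝ) : ℂ), ?_, mem_ball_self one_pos⟩, fun w hw => ht j w hw.1⟩
    · rw [hcj] at hball1
      exact hball1
    · rw [hcj]
      exact mem_ball_self hε
  exact (Relation.ReflTransGen.head e1 hmid).tail e2

/-- KEAD -/
theorem kea : KeaDStmt := by
  intro d _ _ q B R Y hB ι _ κ i m g hg
  have hopen : IsOpen {w : ℂ | m < w.re} := isOpen_lt continuous_const Complex.continuous_re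
  obtain ⟨t, ht, hti, hlog, hcomp⟩ := keyD Pool.Agent.MT100G.H67.ode Pool.Agent.MT100G.H47.uni
    Pool.Agent.MT100G.H11.per hB κ i {w | m < w.re} hopen m le_rfl g hg
  refine ⟨t, ht, hti, fun hm => hlog ?_, fun j => hcomp j (m + κ i - κ j) ?_⟩
  · intro w hw
    have hw' : m < w.re := hw
    have h1 : (w + (κ i : ℂ)).re = w.re + κ i := by simp
    rw [h1]
    linarith
  · intro w hw
    have hw' : m < w.re := hw
    have h1 : (w + ((κ i : ℂ) - κ j)).re = w.re + (κ i - κ j) := by simp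
    rw [h1]
    linarith

end Pool.Agent.MT100D.H90
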